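import Pool.Agent.Lib.helper28.ErgB

set_option autoImplicit false

namespace Pool.Agent.Results.MP_135240_an.No

open MeasureTheory Filter Topology Pool.Agent.H28ErgB

theorem result : ∃ (X : Type) (_ : MetricSpace X) (_ : MeasurableSpace X) (_ : BorelSpace X)
    (μ : Measure X) (_ : IsProbabilityMeasure μ),
    (∃ c : ℝ, 1 ≤ c ∧ ∀ g : X → ℝ, Integrable g μ → ∀ ε : ℝ, 0 < ε →
      μ {x | ENNReal.ofReal ε ≤ ⨆ (r : ℝ) (_ : 0 < r), ENNReal.ofReal
        ((μ.real (Metric.ball x r))⁻¹ * ∫ y in Metric.ball x r, |g y| ∂μ)} ≤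
        ENNReal.ofReal (c * (∫ y, |g y| ∂μ) / ε)) ∧
    (∀ x r, 0 < r → 0 < μ (Metric.ball x r)) ∧
    ∃ T : X → X, MeasurePreserving T μ μ ∧ ∃ f : X → ℝ, Integrable f μ ∧
      ∃ A : Set X, MeasurableSet A ∧ 0 < μ A ∧ ∀ x ∈ A,
        ¬ ∀ ε > 0, ∃ δ > 0, ∃ K : ℕ, ∀ (r : ℝ) (k : ℕ), 0 < r → r < δ → K ≤ k →
          |(μ.real (Metric.ball x r))⁻¹ *
              (∫ y in Metric.ball x r, (k : ℝ)⁻¹ * ∑ j ∈ Finset.range k, f (T^[j] y) ∂μ) -
            condExp (MeasurableSpace.invariants T) μ f x| < ε := by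
  letI : MetricSpace (ℕ → ℕ) := PiNat.metricSpace
  letI : MetricSpace G := φ_emb.comapMetricSpace φ
  letI : MeasurableSpace G := borel G
  haveI : BorelSpace G := ⟨rfl⟩
  set μ : Measure G := Measure.addHaarMeasure ⊤ with hμ
  haveI : IsProbabilityMeasure μ := ⟨by simpa using Measure.addHaarMeasure_self (K₀ := (⊤ : TopologicalSpace.PositiveCompacts G))⟩
  have hb : ∀ (x : G) (r : ℝ), Metric.ball x r = φ ⁻¹' Metric.ball (φ x) r := fun x r => rfl
  have hb1 : ∀ (x : G) r, 0 < r → ∃ m, Metric.ball x r = C φ x m := by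
    intro x r hr
    obtain ⟨m, hm⟩ := ball_pinat (φ x) hr
    exact ⟨m, by rw [hb, hm]; rfl⟩
  have hb2 : ∀ (x : G) m, Metric.ball x (2 * (1 / 2) ^ m) = C φ x m := by
    intro x m
    rw [hb, ball_pinat']; rfl
  refine ⟨G, inferInstance, inferInstance, inferInstance, μ, inferInstance,
    ⟨2, by norm_num, HL μ φ hb1 fun x m => hb2 x m ▸ Metric.isOpen_ball⟩,
    fun x r hr => Metric.measure_ball_pos μ x hr, fun y => -1 + y,
    measurePreserving_add_left μ (-1), fun y => (F y).toReal, ?_⟩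
  obtain ⟨hFm, hFi⟩ := F_int μ
  have hFt : ∫⁻ y, F y ∂μ ≠ ⊤ := (hFi.trans_lt ENNReal.ofReal_lt_top).ne
  have hfi : Integrable (fun y => (F y).toReal) μ :=
    integrable_toReal_of_lintegral_ne_top hFm.aemeasurable hFt
  refine ⟨hfi, ?_⟩
  have hle := MeasurableSpace.invariants_le (fun y : G => -1 + y)
  set g := condExp (MeasurableSpace.invariants fun y : G => -1 + y) μ (fun y => (F y).toReal) with hg
  have hgm : Measurable g := stronglyMeasurable_condExp.measurable.mono hle le_rfl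
  have hgi : Integrable g μ := integrable_condExp
  have h1 : ∫ y, g y ∂μ ≤ 1 / 2 := by
    rw [hg, integral_condExp hle, integral_toReal hFm.aemeasurable (ae_lt_top hFm hFt)]
    exact ENNReal.toReal_le_of_le_ofReal (by norm_num) hFi
  refine ⟨{x | g x ≤ 3 / 4}, measurableSet_le hgm measurable_const, pos_iff_ne_zero.2 fun h0 => ?_, ?_⟩
  · have h2 : ∫ _ : G, (3 / 4 : ℝ) ∂μ ≤ ∫ y, g y ∂μ := by
      refine integral_mono_ae (integrable_const _) hgi ?_
      filter_upwards [measure_eq_zero_iff_ae_notMem.1 h0] with y hy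
      exact (not_le.1 hy).le
    simp at h2
    linarith
  · intro x hx h
    obtain ⟨δ, hδ, K, hK⟩ := h (1 / 4) (by norm_num)
    obtain ⟨m, hm⟩ := exists_pow_lt_of_lt_one (half_pos hδ) (by norm_num : (1 / 2 : ℝ) < 1)
    obtain ⟨k, k1, k2⟩ := big μ x (m + K)
    have h3 : (1 / 2 : ℝ) ^ (2 * (m + K) + 1) ≤ (1 / 2) ^ m :=
      pow_le_pow_of_le_one (by norm_num) (by norm_num) (by omega)
    have h4 := hK (2 * (1 / 2) ^ (2 * (m + K) + 1)) k (by positivity) (by linarith) (by omega)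
    rw [hb2] at h4
    have h5 : g x ≤ 3 / 4 := hx
    have := (abs_lt.1 h4).2
    linarith

end Pool.Agent.Results.MP_135240_an.No
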